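import Mathlib
import Pool.Prelude.Def_F_75ec743f

set_option autoImplicit false
open N3d24e4eb
open Polynomial MeasureTheory ENNReal Filter

namespace Pool.Agent.Helper121.Escape

open Set

/-! ### The wall -/

/-- Rotation angle of the corridor at radius `r`. -/
noncomputable def phi (k : ℕ) (r : ℝ) : ℝ := 4 * k * (r - 1 / 2) * Real.pi

/-- The wall: the part of the annulus `1/2 ≤ |z| ≤ 3/4` off a rotating sector. -/
def wall (k : ℕ) : Set ℂ :=
  {z | 1 / 2 ≤ ‖z‖ ∧ ‖z‖ ≤ 3 / 4 ∧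
    (z * Complex.exp (-(phi k ‖z‖ : ℂ) * Complex.I)).re ≤ ‖z‖ / 2}

lemma continuous_phi (k : ℕ) : Continuous (phi k) := by
  unfold phi; fun_prop

lemma isCompact_wall (k : ℕ) : IsCompact (wall k) := by
  apply Metric.isCompact_of_isClosed_isBounded
  · have h1 : IsClosed {z : ℂ | 1 / 2 ≤ ‖z‖} := isClosed_le continuous_const continuous_norm
    have h2 : IsClosed {z : ℂ | ‖z‖ ≤ 3 / 4} := isClosed_le continuous_norm continuous_const
    have h3 : IsClosed {z : ℂ | (z * Complex.exp (-(phi k ‖z‖ : ℂ) * Complex.I)).re ≤ ‖z‖ / 2} := by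
      apply isClosed_le
      · have := continuous_phi k
        fun_prop
      · fun_prop
    exact h1.inter (h2.inter h3)
  · rw [isBounded_iff_forall_norm_le]
    exact ⟨3 / 4, fun z hz => hz.2.1⟩

/-! ### The polynomials -/

/-- The reciprocal conjugate polynomial. -/
noncomputable def star' (g : ℂ[X]) : ℂ[X] := (g.map (starRingEnd ℂ)).reverse

lemma natDegree_mapconj (g : ℂ[X]) : (g.map (starRingEnd ℂ)).natDegree = g.natDegree :=
  natDegree_map_eq_of_injective (starRingEnd ℂ).injective g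

lemma eval_star' (g : ℂ[X]) (z : ℂ) (hz : z ≠ 0) :
    (star' g).eval z = z ^ g.natDegree * starRingEnd ℂ (g.eval (starRingEnd ℂ z⁻¹)) := by
  let _ : Invertible (z⁻¹) := invertibleOfNonzero (inv_ne_zero hz)
  have h := eval₂_reverse_mul_pow (RingHom.id ℂ) z⁻¹ (g.map (starRingEnd ℂ))
  rw [invOf_eq_inv, inv_inv, natDegree_mapconj] at h
  have h2 : eval₂ (RingHom.id ℂ) z⁻¹ (g.map (starRingEnd ℂ)) =
      starRingEnd ℂ (g.eval (starRingEnd ℂ z⁻¹)) := by
    change (g.map (starRingEnd ℂ)).eval z⁻¹ = _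
    rw [eval_map]
    have : z⁻¹ = starRingEnd ℂ (starRingEnd ℂ z⁻¹) := (Complex.conj_conj _).symm
    conv_lhs => rw [this]
    rw [eval₂_at_apply]
  rw [h2] at h
  have h3 : (star' g).eval z = eval₂ (RingHom.id ℂ) z (g.map (starRingEnd ℂ)).reverse := rfl
  rw [h3, ← h]
  have h4 : z ^ g.natDegree * z⁻¹ ^ g.natDegree = 1 := by
    rw [← mul_pow, mul_inv_cancel₀ hz, one_pow]
  calc _ = (z ^ g.natDegree * z⁻¹ ^ g.natDegree) *
        eval₂ (RingHom.id ℂ) z (g.map (starRingEnd ℂ)).reverse := by rw [h4, one_mul]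
    _ = _ := by ring

lemma star'_natDegree (g : ℂ[X]) (hg0 : g.coeff 0 = 1) : (star' g).natDegree = g.natDegree := by
  unfold star'
  rw [reverse_natDegree, natDegree_mapconj]
  have : (g.map (starRingEnd ℂ)).natTrailingDegree = 0 := by
    rw [natTrailingDegree_eq_zero]
    right
    rw [coeff_map, hg0]; simp
  rw [this, Nat.sub_zero]

lemma star'_monic (g : ℂ[X]) (hg0 : g.coeff 0 = 1) : (star' g).Monic := by
  unfold star' Monic
  rw [reverse_leadingCoeff, trailingCoeff]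
  have : (g.map (starRingEnd ℂ)).natTrailingDegree = 0 := by
    rw [natTrailingDegree_eq_zero]
    right
    rw [coeff_map, hg0]; simp
  rw [this, coeff_map, hg0]; simp

lemma norm_star'_le (g : ℂ[X]) (hg : ∀ z : ℂ, ‖z‖ ≤ 1 → g.eval z ≠ 0) (w : ℂ) (hw : ‖w‖ ≤ 1) :
    ‖(star' g).eval w‖ ≤ ‖g.eval w‖ := by
  have hd : DiffContOnCl ℂ (fun z => (star' g).eval z / g.eval z) (Metric.ball (0 : ℂ) 1) := by
    constructor
    · apply DifferentiableOn.div
      · exact (star' g).differentiable.differentiableOn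
      · exact g.differentiable.differentiableOn
      · intro z hz
        rw [mem_ball_zero_iff] at hz
        exact hg z hz.le
    · rw [closure_ball _ one_ne_zero]
      apply ContinuousOn.div
      · exact (star' g).continuous.continuousOn
      · exact g.continuous.continuousOn
      · intro z hz
        rw [mem_closedBall_zero_iff] at hz
        exact hg z hz
  have hfr : ∀ z ∈ frontier (Metric.ball (0 : ℂ) 1), ‖(star' g).eval z / g.eval z‖ ≤ 1 := by
    intro z hz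
    rw [frontier_ball _ one_ne_zero, mem_sphere_zero_iff_norm] at hz
    have hz0 : z ≠ 0 := by
      intro h0; rw [h0, norm_zero] at hz; norm_num at hz
    have hinv : starRingEnd ℂ z⁻¹ = z := by
      rw [map_inv₀, inv_eq_iff_eq_inv]
      rw [Complex.inv_def, Complex.normSq_eq_norm_sq, hz]
      simp
    rw [eval_star' g z hz0, hinv, norm_div, norm_mul, norm_pow, hz, one_pow, one_mul,
      RCLike.norm_conj]
    rw [div_self (norm_ne_zero_iff.mpr (hg z hz.le))]
  have h1 := Complex.norm_le_of_forall_mem_frontier_norm_le Metric.isBounded_ball hd hfr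
    (z := w) (by rw [closure_ball _ one_ne_zero, mem_closedBall_zero_iff]; exact hw)
  rw [norm_div, div_le_one (norm_pos_iff.mpr (hg w hw))] at h1
  exact h1

lemma norm_le_star' (g : ℂ[X]) (hg : ∀ z : ℂ, ‖z‖ ≤ 1 → g.eval z ≠ 0) (z : ℂ) (hz : 1 ≤ ‖z‖) :
    ‖g.eval z‖ ≤ ‖(star' g).eval z‖ := by
  have hz0 : z ≠ 0 := by
    intro h0; rw [h0, norm_zero] at hz; norm_num at hz
  obtain ⟨w, hw⟩ : ∃ w, w = starRingEnd ℂ z⁻¹ := ⟨_, rfl⟩
  have hw0 : w ≠ 0 := by
    rw [hw]; simpa using hz0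
  have hwn : ‖w‖ ≤ 1 := by
    rw [hw, RCLike.norm_conj, norm_inv]
    exact inv_le_one_of_one_le₀ hz
  have h1 := norm_star'_le g hg w hwn
  have h2 : starRingEnd ℂ w⁻¹ = z := by
    rw [hw, ← map_inv₀, inv_inv, Complex.conj_conj]
  rw [eval_star' g w hw0, h2, norm_mul, norm_pow, RCLike.norm_conj] at h1
  rw [eval_star' g z hz0, norm_mul, norm_pow, RCLike.norm_conj, ← hw]
  have h3 : ‖z‖ * ‖w‖ = 1 := by
    rw [hw, RCLike.norm_conj, norm_inv, mul_inv_cancel₀ (norm_ne_zero_iff.mpr hz0)]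
  calc ‖g.eval z‖ = (‖z‖ * ‖w‖) ^ g.natDegree * ‖g.eval z‖ := by rw [h3, one_pow, one_mul]
    _ = ‖z‖ ^ g.natDegree * (‖w‖ ^ g.natDegree * ‖g.eval z‖) := by rw [mul_pow]; ring
    _ ≤ ‖z‖ ^ g.natDegree * ‖g.eval w‖ := mul_le_mul_of_nonneg_left h1 (by positivity)

/-- The family `z^m g^*(z) + g(z)`. -/
noncomputable def fam (g : ℂ[X]) (m : ℕ) : ℂ[X] := X ^ m * star' g + g

lemma fam_natDegree_aux (g : ℂ[X]) (hg0 : g.coeff 0 = 1) (m : ℕ) (hm : 1 ≤ m) :
    (X ^ m * star' g).Monic ∧ (X ^ m * star' g).natDegree = m + g.natDegree ∧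
      g.degree < (X ^ m * star' g).degree := by
  have h1 : (X ^ m * star' g).Monic := (monic_X_pow m).mul (star'_monic g hg0)
  have h2 : (X ^ m * star' g).natDegree = m + g.natDegree := by
    rw [(monic_X_pow m).natDegree_mul (star'_monic g hg0), natDegree_X_pow,
      star'_natDegree g hg0]
  refine ⟨h1, h2, ?_⟩
  apply degree_lt_degree
  rw [h2]; omega

lemma fam_monic (g : ℂ[X]) (hg0 : g.coeff 0 = 1) (m : ℕ) (hm : 1 ≤ m) : (fam g m).Monic := by
  obtain ⟨h1, h2, h3⟩ := fam_natDegree_aux g hg0 m hm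
  exact h1.add_of_left h3

lemma fam_natDegree (g : ℂ[X]) (hg0 : g.coeff 0 = 1) (m : ℕ) (hm : 1 ≤ m) :
    (fam g m).natDegree = m + g.natDegree := by
  obtain ⟨h1, h2, h3⟩ := fam_natDegree_aux g hg0 m hm
  unfold fam
  rw [natDegree_add_eq_left_of_degree_lt h3, h2]

lemma fam_roots (g : ℂ[X]) (hg : ∀ z : ℂ, ‖z‖ ≤ 1 → g.eval z ≠ 0)
    (m : ℕ) (hm : 1 ≤ m) : (fam g m).rootSet ℂ ⊆ Metric.closedBall 0 1 := by
  intro z hz
  rw [mem_closedBall_zero_iff]
  by_contra hcon
  push Not at hcon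
  have hz' : (fam g m).eval z = 0 := by
    have := (mem_rootSet.mp hz).2
    simpa using this
  simp only [fam, eval_add, eval_mul, eval_pow, eval_X] at hz'
  have h1 : z ^ m * (star' g).eval z = -g.eval z := by linear_combination hz'
  have h2 : ‖z‖ ^ m * ‖(star' g).eval z‖ = ‖g.eval z‖ := by
    rw [← norm_pow, ← norm_mul, h1, norm_neg]
  have h3 := norm_le_star' g hg z hcon.le
  have hz0 : z ≠ 0 := by
    intro h0; rw [h0, norm_zero] at hcon; norm_num at hcon
  have h4 : 0 < ‖(star' g).eval z‖ := by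
    rw [norm_pos_iff, eval_star' g z hz0]
    apply mul_ne_zero (pow_ne_zero _ hz0)
    rw [Ne, map_eq_zero]
    apply hg
    rw [RCLike.norm_conj, norm_inv]
    exact inv_le_one_of_one_le₀ hcon.le
  have h5 : 1 < ‖z‖ ^ m := one_lt_pow₀ hcon (by omega)
  nlinarith

lemma fam_large (g : ℂ[X]) (hg : ∀ z : ℂ, ‖z‖ ≤ 1 → g.eval z ≠ 0) (m : ℕ) (z : ℂ)
    (hz : ‖z‖ ≤ 3 / 4) : ‖g.eval z‖ * (1 - (3 / 4) ^ m) ≤ ‖(fam g m).eval z‖ := by
  simp only [fam, eval_add, eval_mul, eval_pow, eval_X]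
  have h1 := norm_star'_le g hg z (by linarith)
  have h2 : ‖z‖ ^ m ≤ (3 / 4) ^ m := pow_le_pow_left₀ (norm_nonneg _) hz m
  have h3 : ‖z ^ m * (star' g).eval z‖ ≤ (3 / 4) ^ m * ‖g.eval z‖ := by
    rw [norm_mul, norm_pow]
    exact mul_le_mul h2 h1 (norm_nonneg _) (by positivity)
  have h4 : ‖g.eval z‖ ≤ ‖z ^ m * (star' g).eval z + g.eval z‖ + ‖z ^ m * (star' g).eval z‖ := by
    have : g.eval z = (z ^ m * (star' g).eval z + g.eval z) - z ^ m * (star' g).eval z := by ring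
    conv_lhs => rw [this]
    exact norm_sub_le _ _
  linarith

/-! ### Length of escape paths -/

/-- Radii of the annuli. -/
noncomputable def rad (k j : ℕ) : ℝ := 1 / 2 + j / (4 * k)

lemma phi_rad (k j : ℕ) (hk : 1 ≤ k) : phi k (rad k j) = j * Real.pi := by
  have : (k : ℝ) ≠ 0 := by positivity
  unfold phi rad
  field_simp
  ring

lemma rad_le (k j : ℕ) (hk : 1 ≤ k) (hj : j ≤ k) : rad k j ≤ 3 / 4 := by
  have hk' : (0 : ℝ) < k := by positivity
  have hj' : (j : ℝ) ≤ k := by exact_mod_cast hj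
  unfold rad
  have : (j : ℝ) / (4 * k) ≤ 1 / 4 := by
    rw [div_le_div_iff₀ (by positivity) (by norm_num)]
    linarith
  linarith

lemma le_rad (k j : ℕ) : 1 / 2 ≤ rad k j := by
  unfold rad
  have : (0 : ℝ) ≤ (j : ℝ) / (4 * k) := by positivity
  linarith

lemma rad_lt (k j : ℕ) (hk : 1 ≤ k) : rad k j < rad k (j + 1) := by
  have hk' : (0 : ℝ) < k := by positivity
  unfold rad
  have : (j : ℝ) / (4 * k) < ((j + 1 : ℕ) : ℝ) / (4 * k) := by
    apply div_lt_div_of_pos_right _ (by positivity)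
    push_cast; linarith
  linarith

/-- At the radius `rad k j` a point off the wall lies on a definite side. -/
lemma side (k j : ℕ) (hk : 1 ≤ k) (hj : j ≤ k) (z : ℂ) (hz : ‖z‖ = rad k j)
    (hw : z ∉ wall k) : 1 / 4 < (-1) ^ j * z.re := by
  have h1 := le_rad k j
  have h2 := rad_le k j hk hj
  have h3 : ‖z‖ / 2 < (z * Complex.exp (-(phi k ‖z‖ : ℂ) * Complex.I)).re := by
    by_contra hcon
    push Not at hcon
    exact hw ⟨by rw [hz]; exact h1, by rw [hz]; exact h2, hcon⟩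
  rw [hz, phi_rad k j hk] at h3
  have h4 : Complex.exp (-((j * Real.pi : ℝ) : ℂ) * Complex.I) = (((-1) ^ j : ℝ) : ℂ) := by
    have e1 : -((j * Real.pi : ℝ) : ℂ) * Complex.I = (j : ℂ) * (-(Real.pi * Complex.I)) := by
      push_cast; ring
    rw [e1, Complex.exp_nat_mul, Complex.exp_neg, Complex.exp_pi_mul_I]
    push_cast
    norm_num
  rw [h4, mul_comm, Complex.re_ofReal_mul] at h3
  linarith

/-- A connected set from `0` to the unit circle off the wall meets every vertical line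
`Re z = v`, `|v| < 1/4`, in every one of the annuli. -/
lemma crossing (k j : ℕ) (hk : 1 ≤ k) (hj : j < k) (Γ : Set ℂ) (hΓ : IsPreconnected Γ)
    (h0 : (0 : ℂ) ∈ Γ) (h1 : ∃ z ∈ Γ, ‖z‖ = 1) (hw : ∀ z ∈ Γ, z ∉ wall k) (v : ℝ)
    (hv : v ∈ Set.Ioo (-(1 / 4) : ℝ) (1 / 4)) :
    ∃ z ∈ Γ, rad k j < ‖z‖ ∧ ‖z‖ < rad k (j + 1) ∧ z.re = v := by
  by_contra hcon
  push Not at hcon
  -- sign `σ = (-1)^j`
  obtain ⟨σ, hσ⟩ : ∃ σ : ℝ, σ = (-1) ^ j := ⟨_, rfl⟩
  have hσ1 : σ = 1 ∨ σ = -1 := by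
    rw [hσ]; exact neg_one_pow_eq_or ℝ j
  have hσv : |σ * v| < 1 / 4 := by
    rw [abs_mul]
    have : |σ| = 1 := by rcases hσ1 with h | h <;> rw [h] <;> norm_num
    rw [this, one_mul, abs_lt]
    exact ⟨hv.1, hv.2⟩
  have hlt := rad_lt k j hk
  have hside1 : ∀ z ∈ Γ, ‖z‖ = rad k j → σ * v < σ * z.re := by
    intro z hz hzr
    have := side k j hk (by omega) z hzr (hw z hz)
    rw [← hσ] at this
    linarith [(abs_lt.mp hσv).2]
  have hside2 : ∀ z ∈ Γ, ‖z‖ = rad k (j + 1) → σ * z.re < σ * v := by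
    intro z hz hzr
    have := side k (j + 1) hk (by omega) z hzr (hw z hz)
    rw [pow_succ, ← hσ] at this
    linarith [(abs_lt.mp hσv).1]
  set U : Set ℂ := {z | ‖z‖ < rad k j} ∪ {z | ‖z‖ < rad k (j + 1) ∧ σ * v < σ * z.re} with hU
  set V : Set ℂ := {z | rad k (j + 1) < ‖z‖} ∪ {z | rad k j < ‖z‖ ∧ σ * z.re < σ * v} with hV
  have hUo : IsOpen U := by
    apply IsOpen.union
    · exact isOpen_lt continuous_norm continuous_const
    · apply IsOpen.inter
      · exact isOpen_lt continuous_norm continuous_const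
      · exact isOpen_lt continuous_const (continuous_const.mul Complex.continuous_re)
  have hVo : IsOpen V := by
    apply IsOpen.union
    · exact isOpen_lt continuous_const continuous_norm
    · apply IsOpen.inter
      · exact isOpen_lt continuous_const continuous_norm
      · exact isOpen_lt (continuous_const.mul Complex.continuous_re) continuous_const
  have hdisj : Disjoint U V := by
    rw [Set.disjoint_left]
    rintro z (h | ⟨h, h'⟩) (g | ⟨g, g'⟩)
    · simp only [Set.mem_ofPred_eq] at h g; linarith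
    · simp only [Set.mem_ofPred_eq] at h; linarith
    · simp only [Set.mem_ofPred_eq] at g; linarith
    · linarith
  have hsub : Γ ⊆ U ∪ V := by
    intro z hz
    rcases lt_trichotomy ‖z‖ (rad k j) with h | h | h
    · exact Or.inl (Or.inl h)
    · exact Or.inl (Or.inr ⟨by rw [h]; exact hlt, hside1 z hz h⟩)
    · rcases lt_trichotomy ‖z‖ (rad k (j + 1)) with g | g | g
      · have hne := hcon z hz h g
        have hne' : σ * z.re ≠ σ * v := by
          intro heq
          have hσ0 : σ ≠ 0 := by rcases hσ1 with h | h <;> rw [h] <;> norm_num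
          exact hne (mul_left_cancel₀ hσ0 heq)
        rcases lt_or_gt_of_ne hne' with e | e
        · exact Or.inr (Or.inr ⟨h, e⟩)
        · exact Or.inl (Or.inr ⟨g, e⟩)
      · exact Or.inr (Or.inr ⟨h, hside2 z hz g⟩)
      · exact Or.inr (Or.inl g)
  have hΓU : Γ ⊆ U := by
    apply hΓ.subset_left_of_subset_union hUo hVo hdisj hsub
    refine ⟨0, h0, Or.inl ?_⟩
    simp only [Set.mem_ofPred_eq, norm_zero]
    linarith [le_rad k j]
  obtain ⟨z, hz, hz1⟩ := h1
  rcases hΓU hz with h | h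
  · simp only [Set.mem_ofPred_eq] at h
    linarith [rad_le k j hk (by omega)]
  · have := h.1
    linarith [rad_le k (j + 1) hk (by omega)]

/-- The annuli. -/
def ann (k j : ℕ) : Set ℂ := {z | rad k j < ‖z‖ ∧ ‖z‖ < rad k (j + 1)}

lemma isOpen_ann (k j : ℕ) : IsOpen (ann k j) :=
  (isOpen_lt continuous_const continuous_norm).inter (isOpen_lt continuous_norm continuous_const)

lemma rad_mono (k : ℕ) : Monotone (rad k) := by
  intro i j hij
  have : (i : ℝ) ≤ j := by exact_mod_cast hij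
  unfold rad
  have : (i : ℝ) / (4 * k) ≤ (j : ℝ) / (4 * k) := by
    apply div_le_div_of_nonneg_right this (by positivity)
  linarith

lemma ann_disjoint (k i j : ℕ) (hij : i < j) : Disjoint (ann k i) (ann k j) := by
  rw [Set.disjoint_left]
  rintro z ⟨_, h1⟩ ⟨h2, _⟩
  have := rad_mono k (by omega : i + 1 ≤ j)
  linarith

lemma length_piece (k j : ℕ) (hk : 1 ≤ k) (hj : j < k) (Γ : Set ℂ) (hΓ : IsPreconnected Γ)
    (h0 : (0 : ℂ) ∈ Γ) (h1 : ∃ z ∈ Γ, ‖z‖ = 1) (hw : ∀ z ∈ Γ, z ∉ wall k) :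
    ENNReal.ofReal (1 / 2) ≤ μH[1] (Γ ∩ ann k j) := by
  have hlip : LipschitzWith 1 Complex.re := by
    apply LipschitzWith.of_dist_le_mul
    intro x y
    rw [Real.dist_eq, ← Complex.sub_re, NNReal.coe_one, one_mul, Complex.dist_eq]
    exact Complex.abs_re_le_norm _
  have h2 := hlip.hausdorffMeasure_image_le (d := 1) zero_le_one (Γ ∩ ann k j)
  simp only [ENNReal.coe_one, ENNReal.rpow_one, one_mul] at h2
  refine le_trans ?_ h2
  rw [hausdorffMeasure_real]
  have h3 : Set.Ioo (-(1 / 4) : ℝ) (1 / 4) ⊆ Complex.re '' (Γ ∩ ann k j) := by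
    intro v hv
    obtain ⟨z, hz, ha, hb, hc⟩ := crossing k j hk hj Γ hΓ h0 h1 hw v hv
    exact ⟨z, ⟨hz, ha, hb⟩, hc⟩
  refine le_trans ?_ (measure_mono h3)
  rw [Real.volume_Ioo]
  apply ENNReal.ofReal_le_ofReal
  norm_num

lemma length_total (k : ℕ) (hk : 1 ≤ k) (Γ : Set ℂ) (hΓ : IsPreconnected Γ)
    (hm : MeasurableSet Γ)
    (h0 : (0 : ℂ) ∈ Γ) (h1 : ∃ z ∈ Γ, ‖z‖ = 1) (hw : ∀ z ∈ Γ, z ∉ wall k) :
    ENNReal.ofReal (k / 2) ≤ μH[1] Γ := by
  have h2 : μH[1] (⋃ j ∈ Finset.range k, Γ ∩ ann k j) =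
      ∑ j ∈ Finset.range k, μH[1] (Γ ∩ ann k j) := by
    apply measure_biUnion_finset
    · intro i hi j hj hij
      rcases lt_or_gt_of_ne hij with h | h
      · exact (ann_disjoint k i j h).mono Set.inter_subset_right Set.inter_subset_right
      · exact ((ann_disjoint k j i h).mono Set.inter_subset_right Set.inter_subset_right).symm
    · intro j _
      exact hm.inter (isOpen_ann k j).measurableSet
  have h3 : μH[1] (⋃ j ∈ Finset.range k, Γ ∩ ann k j) ≤ μH[1] Γ := by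
    apply measure_mono
    intro z hz
    simp only [Set.mem_iUnion] at hz
    obtain ⟨j, _, hz⟩ := hz
    exact hz.1
  refine le_trans ?_ h3
  rw [h2]
  have h4 : ∑ j ∈ Finset.range k, ENNReal.ofReal (1 / 2) ≤
      ∑ j ∈ Finset.range k, μH[1] (Γ ∩ ann k j) := by
    apply Finset.sum_le_sum
    intro j hj
    exact length_piece k j hk (Finset.mem_range.mp hj) Γ hΓ h0 h1 hw
  refine le_trans (le_of_eq ?_) h4
  rw [Finset.sum_const, Finset.card_range, nsmul_eq_mul, ← ENNReal.ofReal_natCast,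
    ← ENNReal.ofReal_mul (by positivity)]
  congr 1
  ring

end Pool.Agent.Helper121.Escape
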