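import Mathlib
import Pool.Prelude.Def_F_75ec743f
import Pool.Agent.Helper121.Escape

set_option autoImplicit false
open N3d24e4eb
open Polynomial MeasureTheory ENNReal Filter

namespace Pool.Agent.Helper121.Escape

open Set

/-- Quantitative separation data at the point `w`. -/
def Good (K : Set ℂ) (w : ℂ) (d : ℕ) (B : ℝ) : Prop :=
  ∃ P : ℂ[X], P.natDegree ≤ d ∧ P.eval w = 1 ∧ (∀ z ∈ K, ‖P.eval z‖ ≤ 1 / 4) ∧
    ∀ z : ℂ, ‖z‖ ≤ 3 → ‖P.eval z‖ ≤ B

/-- One step of the chain. -/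
lemma good_step {K : Set ℂ} {w₀ w : ℂ} {d : ℕ} {B D : ℝ} (hw₀ : ‖w₀‖ ≤ 2) (hD0 : 0 < D)
    (hD1 : D ≤ 1) (hD : ∀ z ∈ K, D ≤ ‖z - w₀‖) (hww : ‖w - w₀‖ ≤ D / 2) (hB : 2 ≤ B)
    (hd : 1 ≤ d) (h : Good K w₀ d B) : Good K w (8 * d) (B ^ 11) := by
  obtain ⟨P₀, hdeg, hP1, hPK, hPB⟩ := h
  have hroot : (1 - P₀ ^ 2).IsRoot w₀ := by
    rw [IsRoot.def, eval_sub, eval_one, eval_pow, hP1]; norm_num
  obtain ⟨q, hq⟩ := dvd_iff_isRoot.mpr hroot
  have hqe : ∀ z : ℂ, 1 - (P₀.eval z) ^ 2 = (z - w₀) * q.eval z := by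
    intro z
    have := congrArg (fun p => p.eval z) hq
    simpa using this
  have hqdeg : q.natDegree ≤ 2 * d - 1 := by
    by_cases hq0 : q = 0
    · rw [hq0]; simp
    have h1 : (1 - P₀ ^ 2).natDegree = 1 + q.natDegree := by
      rw [hq, natDegree_mul (X_sub_C_ne_zero w₀) hq0, natDegree_X_sub_C]
    have h2 : (1 - P₀ ^ 2).natDegree ≤ 2 * d := by
      refine le_trans (natDegree_sub_le _ _) (max_le (by simp) ?_)
      refine le_trans (natDegree_pow_le) ?_
      omega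
    omega
  -- bound of `q` on the disc of radius three
  have hqB : ∀ z : ℂ, ‖z‖ ≤ 3 → ‖q.eval z‖ ≤ 2 * B ^ 2 := by
    intro z hz
    have hB2 : 1 ≤ B ^ 2 := by nlinarith
    have hfr : ∀ y ∈ frontier (Metric.ball (0 : ℂ) 3), ‖q.eval y‖ ≤ 2 * B ^ 2 := by
      intro y hy
      rw [frontier_ball _ (by norm_num), mem_sphere_zero_iff_norm] at hy
      have h1 : 1 ≤ ‖y - w₀‖ := by
        have := norm_sub_norm_le y w₀
        linarith
      have h2 : ‖y - w₀‖ * ‖q.eval y‖ ≤ 1 + B ^ 2 := by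
        rw [← norm_mul, ← hqe y]
        refine le_trans (norm_sub_le _ _) ?_
        rw [norm_one, norm_pow]
        have h3 := pow_le_pow_left₀ (norm_nonneg _) (hPB y (by linarith)) 2
        linarith
      have h4 : ‖q.eval y‖ ≤ ‖y - w₀‖ * ‖q.eval y‖ :=
        le_mul_of_one_le_left (norm_nonneg _) h1
      linarith
    have := Complex.norm_le_of_forall_mem_frontier_norm_le (f := fun y => q.eval y)
      Metric.isBounded_ball (q.differentiable.diffContOnCl) hfr
      (z := z) (by rw [closure_ball _ (by norm_num : (3 : ℝ) ≠ 0), mem_closedBall_zero_iff]; exact hz)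
    exact this
  let ρ : ℂ[X] := C (w - w₀) * q
  have hρe : ∀ z : ℂ, ρ.eval z = (w - w₀) * q.eval z := by
    intro z; simp [ρ]
  have hρdeg : ρ.natDegree ≤ 2 * d - 1 := le_trans (natDegree_C_mul_le _ _) hqdeg
  have hρK : ∀ z ∈ K, ‖ρ.eval z‖ ≤ 17 / 32 := by
    intro z hz
    have h1 := hD z hz
    have h0 : 0 < ‖z - w₀‖ := lt_of_lt_of_le hD0 h1
    have h2 : ‖z - w₀‖ * ‖q.eval z‖ ≤ 17 / 16 := by
      rw [← norm_mul, ← hqe z]
      refine le_trans (norm_sub_le _ _) ?_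
      rw [norm_one, norm_pow]
      have h3 := pow_le_pow_left₀ (norm_nonneg _) (hPK z hz) 2
      norm_num at h3 ⊢
      linarith
    rw [hρe, norm_mul]
    have h5 : ‖w - w₀‖ ≤ ‖z - w₀‖ / 2 := by linarith
    have h6 : ‖w - w₀‖ * ‖q.eval z‖ ≤ ‖z - w₀‖ / 2 * ‖q.eval z‖ :=
      mul_le_mul_of_nonneg_right h5 (norm_nonneg _)
    linarith
  have hρB : ∀ z : ℂ, ‖z‖ ≤ 3 → ‖ρ.eval z‖ ≤ B ^ 2 := by
    intro z hz
    rw [hρe, norm_mul]
    have h1 := hqB z hz
    have h2 : ‖w - w₀‖ ≤ 1 / 2 := by linarith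
    have h3 : ‖w - w₀‖ * ‖q.eval z‖ ≤ 1 / 2 * (2 * B ^ 2) :=
      mul_le_mul h2 h1 (norm_nonneg _) (by norm_num)
    linarith
  refine ⟨ρ ^ 4 + P₀ ^ 2 * (1 + ρ + ρ ^ 2 + ρ ^ 3), ?_, ?_, ?_, ?_⟩
  · have e1 : (ρ ^ 4).natDegree ≤ 8 * d := le_trans natDegree_pow_le (by omega)
    have e2 : (P₀ ^ 2).natDegree ≤ 2 * d := le_trans natDegree_pow_le (by omega)
    have e3 : (1 + ρ + ρ ^ 2 + ρ ^ 3).natDegree ≤ 6 * d := by
      refine natDegree_add_le_of_degree_le (natDegree_add_le_of_degree_le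
        (natDegree_add_le_of_degree_le (by simp) (by omega))
        (le_trans natDegree_pow_le (by omega))) (le_trans natDegree_pow_le (by omega))
    refine natDegree_add_le_of_degree_le e1 ?_
    exact le_trans natDegree_mul_le (by omega)
  · have h1 := hqe w
    have h2 : (P₀.eval w) ^ 2 = 1 - ρ.eval w := by
      rw [hρe]; linear_combination -h1
    simp only [eval_add, eval_pow, eval_mul, eval_one]
    rw [h2]; ring
  · intro z hz
    simp only [eval_add, eval_pow, eval_mul, eval_one]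
    have h1 := hρK z hz
    have h2 := hPK z hz
    have h0 := norm_nonneg (ρ.eval z)
    have e1 : ‖(ρ.eval z) ^ 4‖ ≤ (17 / 32) ^ 4 := by
      rw [norm_pow]; exact pow_le_pow_left₀ h0 h1 4
    have e2 : ‖(P₀.eval z) ^ 2‖ ≤ (1 / 4) ^ 2 := by
      rw [norm_pow]; exact pow_le_pow_left₀ (norm_nonneg _) h2 2
    have e3 : ‖1 + ρ.eval z + (ρ.eval z) ^ 2 + (ρ.eval z) ^ 3‖ ≤
        1 + 17 / 32 + (17 / 32) ^ 2 + (17 / 32) ^ 3 := by
      refine le_trans (norm_add_le _ _) (add_le_add (le_trans (norm_add_le _ _)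
        (add_le_add (le_trans (norm_add_le _ _) (add_le_add (by rw [norm_one]) h1)) ?_)) ?_)
      · rw [norm_pow]; exact pow_le_pow_left₀ h0 h1 2
      · rw [norm_pow]; exact pow_le_pow_left₀ h0 h1 3
    have e4 := mul_le_mul e2 e3 (norm_nonneg _) (by norm_num)
    rw [← norm_mul] at e4
    refine le_trans (norm_add_le _ _) (le_trans (add_le_add e1 e4) ?_)
    norm_num
  · intro z hz
    simp only [eval_add, eval_pow, eval_mul, eval_one]
    have h1 := hρB z hz
    have h2 := hPB z hz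
    have h0 := norm_nonneg (ρ.eval z)
    have hBpos : 0 < B := by linarith
    have e1 : ‖(ρ.eval z) ^ 4‖ ≤ (B ^ 2) ^ 4 := by
      rw [norm_pow]; exact pow_le_pow_left₀ h0 h1 4
    have e2 : ‖(P₀.eval z) ^ 2‖ ≤ B ^ 2 := by
      rw [norm_pow]; exact pow_le_pow_left₀ (norm_nonneg _) h2 2
    have e3 : ‖1 + ρ.eval z + (ρ.eval z) ^ 2 + (ρ.eval z) ^ 3‖ ≤
        1 + B ^ 2 + (B ^ 2) ^ 2 + (B ^ 2) ^ 3 := by
      refine le_trans (norm_add_le _ _) (add_le_add (le_trans (norm_add_le _ _)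
        (add_le_add (le_trans (norm_add_le _ _) (add_le_add (by rw [norm_one]) h1)) ?_)) ?_)
      · rw [norm_pow]; exact pow_le_pow_left₀ h0 h1 2
      · rw [norm_pow]; exact pow_le_pow_left₀ h0 h1 3
    have e4 := mul_le_mul e2 e3 (norm_nonneg _) (by positivity)
    rw [← norm_mul] at e4
    refine le_trans (norm_add_le _ _) (le_trans (add_le_add e1 e4) ?_)
    have f1 : 1 ≤ B := by linarith
    have f2 : B ^ 2 ≤ B ^ 8 := pow_le_pow_right₀ f1 (by norm_num)
    have f3 : B ^ 4 ≤ B ^ 8 := pow_le_pow_right₀ f1 (by norm_num)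
    have f4 : B ^ 6 ≤ B ^ 8 := pow_le_pow_right₀ f1 (by norm_num)
    have f5 : (8 : ℝ) ≤ B ^ 3 := by
      have := pow_le_pow_left₀ (by norm_num : (0 : ℝ) ≤ 2) hB 3
      norm_num at this; exact this
    have f6 : B ^ 8 * 8 ≤ B ^ 8 * B ^ 3 := mul_le_mul_of_nonneg_left f5 (by positivity)
    have f7 : B ^ 8 * B ^ 3 = B ^ 11 := by ring
    have f8 : 0 < B ^ 8 := by positivity
    calc (B ^ 2) ^ 4 + B ^ 2 * (1 + B ^ 2 + (B ^ 2) ^ 2 + (B ^ 2) ^ 3)
        = 2 * B ^ 8 + B ^ 2 + B ^ 4 + B ^ 6 := by ring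
      _ ≤ B ^ 11 := by linarith

/-- The centre line of the corridor. -/
noncomputable def cen (k : ℕ) (t : ℝ) : ℂ := (t : ℂ) * Complex.exp (Complex.I * (phi k t : ℝ))

lemma norm_cen (k : ℕ) (t : ℝ) (ht : 0 ≤ t) : ‖cen k t‖ = t := by
  unfold cen
  rw [norm_mul, mul_comm Complex.I, Complex.norm_exp_ofReal_mul_I, mul_one, Complex.norm_real,
    Real.norm_eq_abs, abs_of_nonneg ht]

lemma norm_exp_sub_exp (a b : ℝ) :
    ‖Complex.exp (Complex.I * (a : ℝ)) - Complex.exp (Complex.I * (b : ℝ))‖ ≤ |a - b| := by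
  have h1 : Complex.exp (Complex.I * (a : ℝ)) - Complex.exp (Complex.I * (b : ℝ)) =
      Complex.exp (Complex.I * (b : ℝ)) * (Complex.exp (Complex.I * ((a - b : ℝ) : ℂ)) - 1) := by
    rw [mul_sub, ← Complex.exp_add, mul_one]
    congr 2
    push_cast; ring
  rw [h1, norm_mul, mul_comm Complex.I (b : ℂ), Complex.norm_exp_ofReal_mul_I, one_mul]
  exact Real.norm_exp_I_mul_ofReal_sub_one_le

lemma phi_sub (k : ℕ) (a b : ℝ) : phi k a - phi k b = 4 * k * Real.pi * (a - b) := by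
  unfold phi; ring

lemma cen_lip (k : ℕ) (t s : ℝ) (hs0 : 0 ≤ s) (hs : s ≤ 2) :
    ‖cen k t - cen k s‖ ≤ |t - s| * (1 + 8 * k * Real.pi) := by
  have h1 : cen k t - cen k s = ((t - s : ℝ) : ℂ) * Complex.exp (Complex.I * (phi k t : ℝ)) +
      (s : ℂ) * (Complex.exp (Complex.I * (phi k t : ℝ)) -
        Complex.exp (Complex.I * (phi k s : ℝ))) := by
    unfold cen; push_cast; ring
  rw [h1]
  refine le_trans (norm_add_le _ _) ?_
  rw [norm_mul, norm_mul, mul_comm Complex.I ((phi k t : ℝ) : ℂ), Complex.norm_exp_ofReal_mul_I,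
    mul_one, Complex.norm_real, Complex.norm_real, Real.norm_eq_abs, Real.norm_eq_abs,
    abs_of_nonneg hs0, mul_comm ((phi k t : ℝ) : ℂ) Complex.I]
  have h2 := norm_exp_sub_exp (phi k t) (phi k s)
  rw [phi_sub, abs_mul, abs_of_nonneg (by positivity : (0 : ℝ) ≤ 4 * k * Real.pi)] at h2
  have h3 : s * ‖Complex.exp (Complex.I * (phi k t : ℝ)) - Complex.exp (Complex.I * (phi k s : ℝ))‖
      ≤ 2 * (4 * k * Real.pi * |t - s|) :=
    mul_le_mul hs h2 (norm_nonneg _) (by norm_num)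
  linarith

lemma pi_bound (k : ℕ) (hk : 1 ≤ k) : 1 + 8 * (k : ℝ) * Real.pi ≤ 27 * k := by
  have h1 : (1 : ℝ) ≤ k := by exact_mod_cast hk
  have h2 := Real.pi_lt_d2
  nlinarith

/-- The corridor keeps a definite distance from the wall. -/
lemma dist_wall (k : ℕ) (hk : 1 ≤ k) (t : ℝ) (ht0 : 0 ≤ t) (ht : t ≤ 2) (z : ℂ)
    (hz : z ∈ wall k) : 1 / (64 * k) ≤ ‖z - cen k t‖ := by
  obtain ⟨hz1, hz2, hz3⟩ := hz
  have hk1 : (1 : ℝ) ≤ k := by exact_mod_cast hk
  set δ := ‖z - cen k t‖ with hδ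
  have hδ0 : 0 ≤ δ := norm_nonneg _
  set e : ℂ := Complex.exp (-(phi k ‖z‖ : ℂ) * Complex.I) with he
  have hen : ‖e‖ = 1 := by
    rw [he]
    have : -(phi k ‖z‖ : ℂ) * Complex.I = ((-(phi k ‖z‖) : ℝ) : ℂ) * Complex.I := by push_cast; ring
    rw [this, Complex.norm_exp_ofReal_mul_I]
  set u : ℂ := z * e with hu
  have hun : ‖u‖ = ‖z‖ := by rw [hu, norm_mul, hen, mul_one]
  have h1 : |‖z‖ - t| ≤ δ := by
    have := abs_norm_sub_norm_le z (cen k t)
    rw [norm_cen k t ht0] at this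
    exact this
  have h2 : ‖u - cen k t * e‖ = δ := by
    rw [hu, ← sub_mul, norm_mul, hen, mul_one]
  have h3 : ‖cen k t * e - (t : ℂ)‖ ≤ 8 * k * Real.pi * δ := by
    have e1 : cen k t * e - (t : ℂ) = (t : ℂ) *
        (Complex.exp (Complex.I * (((phi k t - phi k ‖z‖) : ℝ) : ℂ)) - 1) := by
      unfold cen
      rw [he, mul_assoc, ← Complex.exp_add, mul_sub, mul_one]
      congr 3
      push_cast; ring
    rw [e1, norm_mul, Complex.norm_real, Real.norm_eq_abs, abs_of_nonneg ht0]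
    have e2 := Real.norm_exp_I_mul_ofReal_sub_one_le (x := phi k t - phi k ‖z‖)
    rw [phi_sub, Real.norm_eq_abs, abs_mul,
      abs_of_nonneg (by positivity : (0 : ℝ) ≤ 4 * k * Real.pi), abs_sub_comm t ‖z‖] at e2
    have e3 : 4 * k * Real.pi * |‖z‖ - t| ≤ 4 * k * Real.pi * δ :=
      mul_le_mul_of_nonneg_left h1 (by positivity)
    rw [phi_sub]
    have e4 := mul_le_mul ht (le_trans e2 e3) (norm_nonneg _) (by norm_num)
    linarith
  have h4 : ‖u - (t : ℂ)‖ ≤ δ * (27 * k) := by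
    have e1 : u - (t : ℂ) = (u - cen k t * e) + (cen k t * e - (t : ℂ)) := by ring
    rw [e1]
    refine le_trans (norm_add_le _ _) ?_
    rw [h2]
    have e2 : δ + 8 * k * Real.pi * δ = δ * (1 + 8 * k * Real.pi) := by ring
    have e3 := mul_le_mul_of_nonneg_left (pi_bound k hk) hδ0
    linarith
  have h5 : 3 / 16 ≤ ‖u - (t : ℂ)‖ ^ 2 := by
    rw [← Complex.normSq_eq_norm_sq, Complex.normSq_apply]
    simp only [Complex.sub_re, Complex.sub_im, Complex.ofReal_re, Complex.ofReal_im, sub_zero]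
    have e1 : u.re * u.re + u.im * u.im = ‖z‖ ^ 2 := by
      rw [← Complex.normSq_apply, Complex.normSq_eq_norm_sq, hun]
    have e2 : t * u.re ≤ t * (‖z‖ / 2) := mul_le_mul_of_nonneg_left hz3 ht0
    nlinarith [sq_nonneg (t - ‖z‖ / 2)]
  have h6 : 27 / 64 < ‖u - (t : ℂ)‖ := by
    by_contra hcon
    push Not at hcon
    have := pow_le_pow_left₀ (norm_nonneg _) hcon 2
    norm_num at this
    linarith
  rw [div_le_iff₀ (by positivity)]
  nlinarith

lemma good_start (k : ℕ) : Good (wall k) (cen k 2) 2 4 := by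
  have hn : ‖cen k 2‖ = 2 := norm_cen k 2 (by norm_num)
  have hne : cen k 2 ≠ 0 := by
    intro h0; rw [h0, norm_zero] at hn; norm_num at hn
  have hev : ∀ z : ℂ, (C ((cen k 2)⁻¹ ^ 2) * X ^ 2 : ℂ[X]).eval z = ((cen k 2)⁻¹ * z) ^ 2 := by
    intro z; simp; ring
  refine ⟨C ((cen k 2)⁻¹ ^ 2) * X ^ 2, natDegree_C_mul_X_pow_le _ _, ?_, ?_, ?_⟩
  · rw [hev, inv_mul_cancel₀ hne]; norm_num
  · intro z hz
    rw [hev, norm_pow, norm_mul, norm_inv, hn]
    have : (2 : ℝ)⁻¹ * ‖z‖ ≤ 1 / 2 := by linarith [hz.2.1]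
    have h2 := pow_le_pow_left₀ (by positivity) this 2
    norm_num at h2 ⊢
    linarith
  · intro z hz
    rw [hev, norm_pow, norm_mul, norm_inv, hn]
    have : (2 : ℝ)⁻¹ * ‖z‖ ≤ 2 := by linarith
    have h2 := pow_le_pow_left₀ (by positivity) this 2
    norm_num at h2 ⊢
    linarith

/-- Number of steps. -/
def steps (k : ℕ) : ℕ := 8192 * k ^ 2

lemma good_chain (k : ℕ) (hk : 1 ≤ k) (j : ℕ) (hj : j ≤ steps k) :
    Good (wall k) (cen k (2 - j * (2 / steps k))) (2 * 8 ^ j) (4 ^ (11 ^ j)) := by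
  have hk1 : (1 : ℝ) ≤ k := by exact_mod_cast hk
  have hsp : (0 : ℝ) < steps k := by
    unfold steps; push_cast; positivity
  induction j with
  | zero => simpa using good_start k
  | succ j ih =>
    have ih' := ih (by omega)
    have hjR : (j : ℝ) + 1 ≤ steps k := by exact_mod_cast hj
    have ht0 : 0 ≤ 2 - (j : ℝ) * (2 / steps k) := by
      have : (j : ℝ) * (2 / steps k) ≤ (steps k : ℝ) * (2 / steps k) :=
        mul_le_mul_of_nonneg_right (by linarith) (by positivity)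
      rw [mul_div_cancel₀ _ hsp.ne'] at this
      linarith
    have ht2 : 2 - (j : ℝ) * (2 / steps k) ≤ 2 := by
      have : 0 ≤ (j : ℝ) * (2 / steps k) := by positivity
      linarith
    have hstep := good_step (K := wall k) (w₀ := cen k (2 - j * (2 / steps k)))
      (w := cen k (2 - ((j + 1 : ℕ) : ℝ) * (2 / steps k))) (D := 1 / (64 * k))
      (by rw [norm_cen k _ ht0]; exact ht2) (by positivity)
      (by rw [div_le_one (by positivity)]; linarith)
      (fun z hz => dist_wall k hk _ ht0 ht2 z hz) ?_ ?_ ?_ ih'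
    · have e1 : 8 * (2 * 8 ^ j) = 2 * 8 ^ (j + 1) := by ring
      have e2 : ((4 : ℝ) ^ (11 ^ j)) ^ 11 = 4 ^ (11 ^ (j + 1)) := by
        rw [← pow_mul]; congr 1
      rw [e1, e2] at hstep
      exact hstep
    · refine le_trans (cen_lip k _ _ ht0 ht2) ?_
      have e1 : (2 - ((j + 1 : ℕ) : ℝ) * (2 / steps k)) - (2 - (j : ℝ) * (2 / steps k)) =
          -(2 / steps k) := by push_cast; ring
      rw [e1, abs_neg, abs_of_pos (by positivity)]
      have e2 := mul_le_mul_of_nonneg_left (pi_bound k hk) (by positivity : 0 ≤ 2 / (steps k : ℝ))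
      refine le_trans e2 ?_
      unfold steps
      push_cast
      rw [div_mul_eq_mul_div, div_div, div_le_div_iff₀ (by positivity) (by positivity)]
      nlinarith [sq_nonneg (k : ℝ)]
    · calc (2 : ℝ) ≤ 4 ^ 1 := by norm_num
        _ ≤ 4 ^ (11 ^ j) := pow_le_pow_right₀ (by norm_num) (Nat.one_le_pow _ _ (by norm_num))
    · have : 1 ≤ 8 ^ j := Nat.one_le_pow _ _ (by norm_num)
      omega

lemma good_zero (k : ℕ) (hk : 1 ≤ k) :
    Good (wall k) 0 (2 * 8 ^ (steps k)) (4 ^ (11 ^ (steps k))) := by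
  have h := good_chain k hk (steps k) le_rfl
  have hsp : (0 : ℝ) < steps k := by
    have : (1 : ℝ) ≤ k := by exact_mod_cast hk
    unfold steps; push_cast; positivity
  rw [mul_div_cancel₀ _ hsp.ne'] at h
  have : cen k (2 - 2) = 0 := by unfold cen; simp
  rw [this] at h
  exact h


/-- Quantitative existence of polynomials exceeding one in modulus on the wall. -/
lemma exists_poly_quant (k : ℕ) (hk : 1 ≤ k) (n : ℕ) (hn : 11 ^ (steps k + 2) ≤ n) :
    ∃ f : ℂ[X], IsAdmissible n f ∧ ∀ z ∈ wall k, 1 < ‖f.eval z‖ := by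
  obtain ⟨P, hPd, hP0, hPK, hPB⟩ := good_zero k hk
  obtain ⟨e, he⟩ : ∃ e : ℕ, e = 11 ^ (steps k) := ⟨_, rfl⟩
  rw [← he] at hPB
  have he1 : 1 ≤ e := by rw [he]; exact Nat.one_le_pow _ _ (by norm_num)
  have h8 : 8 ^ (steps k) ≤ e := by
    rw [he]; exact Nat.pow_le_pow_left (by norm_num) _
  obtain ⟨B, hB⟩ : ∃ B : ℝ, B = 4 ^ e := ⟨_, rfl⟩
  rw [← hB] at hPB
  have hB1 : 1 ≤ B := by rw [hB]; exact one_le_pow₀ (by norm_num)
  have hB0 : 0 < B := by linarith
  let g : ℂ[X] := 1 + C (((1 / (4 * B) : ℝ)) : ℂ) * (1 - P)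
  have hgeval : ∀ z : ℂ, g.eval z = 1 + ((1 / (4 * B) : ℝ) : ℂ) * (1 - P.eval z) := by
    intro z; simp [g]
  have hg0 : g.coeff 0 = 1 := by
    rw [coeff_zero_eq_eval_zero, hgeval, hP0]; simp
  have hgd : g.natDegree ≤ 2 * e := by
    have e1 : (C (((1 / (4 * B) : ℝ)) : ℂ) * (1 - P)).natDegree ≤ 2 * e := by
      refine le_trans (natDegree_C_mul_le _ _) (le_trans (natDegree_sub_le _ _) ?_)
      exact max_le (by simp) (le_trans hPd (by omega))
    exact natDegree_add_le_of_degree_le (by simp) e1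
  have hg : ∀ z : ℂ, ‖z‖ ≤ 1 → g.eval z ≠ 0 := by
    intro z hz h0
    rw [hgeval] at h0
    have h1 : ((1 / (4 * B) : ℝ) : ℂ) * (1 - P.eval z) = -1 := by linear_combination h0
    have h2 := congrArg norm h1
    rw [norm_mul, norm_neg, norm_one, Complex.norm_real, Real.norm_eq_abs,
      abs_of_pos (by positivity)] at h2
    have h3 : ‖1 - P.eval z‖ ≤ 2 * B := by
      refine le_trans (norm_sub_le _ _) ?_
      rw [norm_one]
      linarith [hPB z (by linarith)]
    have h4 : 1 / (4 * B) * ‖1 - P.eval z‖ ≤ 1 / (4 * B) * (2 * B) :=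
      mul_le_mul_of_nonneg_left h3 (by positivity)
    have h5 : 1 / (4 * B) * (2 * B) = 1 / 2 := by field_simp; norm_num
    linarith
  have hgK : ∀ z ∈ wall k, 1 + 3 / (16 * B) ≤ ‖g.eval z‖ := by
    intro z hz
    have h1 := hPK z hz
    have h2 : |(P.eval z).re| ≤ ‖P.eval z‖ := Complex.abs_re_le_norm _
    have h3 : 3 / 4 ≤ (1 - P.eval z).re := by
      have h5 := abs_le.mp (le_trans h2 h1)
      rw [Complex.sub_re, Complex.one_re]
      linarith [h5.2]
    have h4 : (g.eval z).re = 1 + 1 / (4 * B) * (1 - P.eval z).re := by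
      rw [hgeval, Complex.add_re, Complex.one_re, Complex.re_ofReal_mul]
    have h5 : 1 / (4 * B) * (3 / 4) ≤ 1 / (4 * B) * (1 - P.eval z).re :=
      mul_le_mul_of_nonneg_left h3 (by positivity)
    have h6 : 1 / (4 * B) * (3 / 4) = 3 / (16 * B) := by field_simp; norm_num
    have h7 := Complex.re_le_norm (g.eval z)
    linarith
  obtain ⟨m, hm⟩ : ∃ m : ℕ, m = n - g.natDegree := ⟨_, rfl⟩
  have hn' : 121 * e ≤ n := by
    rw [he]
    calc 121 * 11 ^ (steps k) = 11 ^ (steps k + 2) := by ring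
      _ ≤ n := hn
  have hm3 : 3 * (2 * e + 3) ≤ m := by omega
  have hpow : (3 / 4 : ℝ) ^ m ≤ 1 / (8 * B) := by
    calc (3 / 4 : ℝ) ^ m ≤ (3 / 4 : ℝ) ^ (3 * (2 * e + 3)) :=
          pow_le_pow_of_le_one (by norm_num) (by norm_num) hm3
      _ = ((3 / 4 : ℝ) ^ 3) ^ (2 * e + 3) := by rw [pow_mul]
      _ ≤ (1 / 2 : ℝ) ^ (2 * e + 3) := pow_le_pow_left₀ (by norm_num) (by norm_num) _
      _ = 1 / (8 * B) := by
          rw [hB, pow_add, pow_mul]
          rw [show (1 / 2 : ℝ) ^ 2 = 1 / 4 by norm_num, one_div_pow]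
          norm_num
  refine ⟨fam g m, ⟨fam_monic g hg0 _ (by omega), ?_, fam_roots g hg _ (by omega)⟩, ?_⟩
  · rw [fam_natDegree g hg0 _ (by omega)]; omega
  · intro z hz
    have h1 := fam_large g hg m z hz.2.1
    have h2 := hgK z hz
    have h3 : 7 / 8 ≤ 1 - (3 / 4 : ℝ) ^ m := by
      have : 1 / (8 * B) ≤ 1 / 8 := by
        apply one_div_le_one_div_of_le (by norm_num); linarith
      linarith
    have h4 := mul_le_mul_of_nonneg_right h2 (by linarith : 0 ≤ 1 - (3 / 4 : ℝ) ^ m)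
    have h5 : (1 + 3 / (16 * B)) * (1 - (3 / 4 : ℝ) ^ m) =
        1 + (3 / (16 * B) * (1 - (3 / 4 : ℝ) ^ m) - (3 / 4 : ℝ) ^ m) := by ring
    have h6 : 3 / (16 * B) * (7 / 8) ≤ 3 / (16 * B) * (1 - (3 / 4 : ℝ) ^ m) :=
      mul_le_mul_of_nonneg_left h3 (by positivity)
    have h7 : 1 / (8 * B) < 3 / (16 * B) * (7 / 8) := by
      rw [div_mul_div_comm, div_lt_div_iff₀ (by positivity) (by positivity)]
      nlinarith
    linarith

lemma worstCase_ge (k : ℕ) (hk : 1 ≤ k) (n : ℕ) (hn : 11 ^ (steps k + 2) ≤ n) :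
    ENNReal.ofReal (k / 2) ≤ worstCase n := by
  obtain ⟨f, hf, hfw⟩ := exists_poly_quant k hk n hn
  refine le_trans ?_ (le_iSup₂_of_le f hf (le_refl _))
  unfold shortestPathLength
  refine le_iInf fun z => le_iInf fun γ => le_iInf fun hz => le_iInf fun hγ => ?_
  unfold length
  apply length_total k hk
  · exact isPreconnected_range γ.continuous
  · exact (isCompact_range γ.continuous).measurableSet
  · exact ⟨0, γ.source⟩
  · exact ⟨z, ⟨1, γ.target⟩, hz⟩
  · intro w hw hwall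
    have h1 := hγ hw
    have h2 := hfw w hwall
    simp only [sublevel, Set.mem_ofPred_eq] at h1
    linarith

lemma worstCase_ge_one (n : ℕ) : 1 ≤ worstCase n := by
  have hf : IsAdmissible n (X ^ n : ℂ[X]) := by
    refine ⟨monic_X_pow n, natDegree_X_pow n, ?_⟩
    intro z hz
    rw [mem_closedBall_zero_iff]
    have := (mem_rootSet.mp hz).2
    simp only [map_pow, aeval_X] at this
    rw [eq_zero_of_pow_eq_zero this, norm_zero]
    norm_num
  refine le_trans ?_ (le_iSup₂_of_le (X ^ n : ℂ[X]) hf (le_refl _))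
  unfold shortestPathLength
  refine le_iInf fun z => le_iInf fun γ => le_iInf fun hz => le_iInf fun _ => ?_
  unfold length
  have hlip : LipschitzWith 1 (fun z : ℂ => ‖z‖) := lipschitzWith_one_norm
  have h2 := hlip.hausdorffMeasure_image_le (d := 1) zero_le_one (Set.range γ)
  simp only [ENNReal.coe_one, ENNReal.rpow_one, one_mul] at h2
  refine le_trans ?_ h2
  rw [hausdorffMeasure_real]
  have h3 : Set.Icc (0 : ℝ) 1 ⊆ (fun z : ℂ => ‖z‖) '' (Set.range γ) := by
    have hpre : IsPreconnected ((fun z : ℂ => ‖z‖) '' (Set.range γ)) :=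
      (isPreconnected_range γ.continuous).image _ continuous_norm.continuousOn
    apply hpre.Icc_subset
    · exact ⟨0, ⟨0, γ.source⟩, norm_zero⟩
    · exact ⟨z, ⟨1, γ.target⟩, hz⟩
  refine le_trans ?_ (measure_mono h3)
  rw [Real.volume_Icc]
  simp

/-- The lower bound. -/
theorem lower_bound (n : ℕ) :
    ENNReal.ofReal (Real.sqrt (Real.log n) / 600) ≤ worstCase n := by
  obtain ⟨k, hk⟩ : ∃ k : ℕ, k = ⌊Real.sqrt (Real.log n) / 150⌋₊ := ⟨_, rfl⟩
  set x := Real.sqrt (Real.log n) / 150 with hx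
  have hx0 : 0 ≤ x := by positivity
  have hlt : x < k + 1 := by rw [hk]; exact Nat.lt_floor_add_one x
  have hle : (k : ℝ) ≤ x := by rw [hk]; exact Nat.floor_le hx0
  by_cases hk1 : 1 ≤ k
  · have hkR : (1 : ℝ) ≤ k := by exact_mod_cast hk1
    have h1 : Real.sqrt (Real.log n) / 600 ≤ (k : ℝ) / 2 := by
      have : Real.sqrt (Real.log n) / 600 = x / 4 := by rw [hx]; ring
      rw [this]; linarith
    refine le_trans (ENNReal.ofReal_le_ofReal h1) (worstCase_ge k hk1 n ?_)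
    -- show the size condition
    have hsq : 150 * (k : ℝ) ≤ Real.sqrt (Real.log n) := by
      have : Real.sqrt (Real.log n) = 150 * x := by rw [hx]; ring
      rw [this]; linarith
    have hlogpos : 0 < Real.log n := by
      by_contra hcon
      push Not at hcon
      rw [Real.sqrt_eq_zero_of_nonpos hcon] at hsq
      linarith
    have hsq2 : (150 * (k : ℝ)) ^ 2 ≤ Real.log n := by
      calc (150 * (k : ℝ)) ^ 2 ≤ (Real.sqrt (Real.log n)) ^ 2 :=
            pow_le_pow_left₀ (by positivity) hsq 2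
        _ = Real.log n := Real.sq_sqrt hlogpos.le
    have hn0 : (0 : ℝ) < n := by
      by_contra hcon
      have : n = 0 := by
        have : (n : ℝ) ≤ 0 := not_lt.mp hcon
        exact_mod_cast le_antisymm this (Nat.cast_nonneg n)
      rw [this] at hlogpos
      simp at hlogpos
    have hlog11 : Real.log 11 < 2.42 := by
      rw [Real.log_lt_iff_lt_exp (by norm_num)]
      have h2 := Real.exp_one_gt_d9
      have h3 : Real.exp 2.42 = Real.exp 1 ^ 2 * Real.exp 0.42 := by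
        rw [← Real.exp_nat_mul, ← Real.exp_add]; norm_num
      have h4 : (1 : ℝ) + 0.42 + 0.42 ^ 2 / 2 ≤ Real.exp 0.42 := by
        have := Real.quadratic_le_exp_of_nonneg (x := 0.42) (by norm_num)
        linarith
      have h5 : (2.718 : ℝ) ^ 2 ≤ Real.exp 1 ^ 2 := by
        apply pow_le_pow_left₀ (by norm_num); linarith
      have h6 := mul_le_mul h5 h4 (by norm_num) (by positivity)
      rw [h3]
      refine lt_of_lt_of_le ?_ h6
      norm_num
    have hmain : Real.log ((11 : ℝ) ^ (steps k + 2)) ≤ Real.log n := by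
      rw [Real.log_pow]
      have e1 : ((steps k + 2 : ℕ) : ℝ) = 8192 * (k : ℝ) ^ 2 + 2 := by
        unfold steps; push_cast; ring
      rw [e1]
      have e2 : (8192 * (k : ℝ) ^ 2 + 2) * Real.log 11 ≤ (8192 * (k : ℝ) ^ 2 + 2) * 2.42 :=
        mul_le_mul_of_nonneg_left hlog11.le (by positivity)
      nlinarith
    have := (Real.log_le_log_iff (by positivity) hn0).mp hmain
    exact_mod_cast this
  · have hk0 : k = 0 := by omega
    rw [hk0] at hlt
    push_cast at hlt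
    have h1 : Real.sqrt (Real.log n) / 600 ≤ 1 := by
      have : Real.sqrt (Real.log n) / 600 = x / 4 := by rw [hx]; ring
      rw [this]; linarith
    refine le_trans (ENNReal.ofReal_le_ofReal h1) ?_
    rw [ENNReal.ofReal_one]
    exact worstCase_ge_one n

end Pool.Agent.Helper121.Escape
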